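import Pool.Agent.H84.Beq2

namespace Pool.Agent.Results.MP_00464d_lc.AllB

open Pool.Agent.H84.BeqDefs

theorem result : ∀ κ < sN, Loc κ → ∀ b : ℕ → ℕ, (∀ k, 1 ≤ b k) →
    (Summable fun k => 1 / (b k : ℝ)) → bEq b < non E :=
  fun _ r h _ a c =>
    (Pool.Agent.H84.Beq.all_b h a c).trans_lt (r.trans_le Pool.Agent.H84.Beq.s_le)

end Pool.Agent.Results.MP_00464d_lc.AllB
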