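import Pool.Agent.H84.Beq2

namespace Pool.Agent.Results.MP_00464d_lc.SomeB

open Pool.Agent.H84.BeqDefs

theorem result (h : cov M < bN) (r : cov M < sN) :
    ∃ b : ℕ → ℕ, (∀ k, 1 ≤ b k) ∧ (Summable fun k => 1 / (b k : ℝ)) ∧ bEq b < non E :=
  (Pool.Agent.H84.Beq.some_b h).imp fun _ s =>
    ⟨s.1, s.2.1, s.2.2.trans_lt (r.trans_le Pool.Agent.H84.Beq.s_le)⟩

end Pool.Agent.Results.MP_00464d_lc.SomeB
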